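import Pool.Agent.L7h65.SI.Step

/-!
Project SI: the step with fixed Sylow subgroups.
-/

set_option autoImplicit false
set_option linter.all false

namespace Pool.Agent.L7h65.SI

open Finset Pool.Agent.L7h27.SI
open scoped Pointwise

/-- what the claim gives inside a group (the conclusion of `S_ACT`) -/
def ActC : Prop := ∀ (G : Type) [Group G] [Finite G] (V : Subgroup G) [V.Normal],
  (∀ x ∈ V, ∀ y ∈ V, x * y = y * x) → V ≠ ⊥ →
  ∀ (ι : Type) [Finite ι] (p : ι → ℕ), (∀ i, (p i).Prime) → Function.Injective p → (∀ i, p i ≠ 2) →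
  (∀ i, ¬ p i ∣ Nat.card V) → (∀ i a b, 1 ≤ a → 2 ^ b ∣ Nat.card V → 2 ^ b ≠ p i ^ a + 1) →
  ∀ D : ι → Subgroup G, (∀ i, IsPGroup (p i) (D i)) →
  (∀ i j, i ≠ j → ∀ g ∈ D i, ∀ h ∈ D j, ∀ x ∈ V, g * h * x * (g * h)⁻¹ = h * g * x * (h * g)⁻¹) →
  ∀ w : ι → G, (∀ i, w i ∈ V) → ∃ v ∈ V, ∀ i, ∀ g ∈ D i, g * (v * w i) = (v * w i) * g → ∀ x ∈ V, g * x = x * g

lemma mem_supV {G : Type} [Group G] (V : Subgroup G) [V.Normal] (P : Subgroup G) (g : G) :
    g ∈ P ⊔ V ↔ ∃ q ∈ P, ∃ v ∈ V, g = q * v := by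
  rw [Subgroup.mem_sup_of_normal_right]
  constructor
  · rintro ⟨q, hq, v, hv, rfl⟩
    exact ⟨q, hq, v, hv, rfl⟩
  · rintro ⟨q, hq, v, hv, rfl⟩
    exact ⟨q, hq, v, hv, rfl⟩

/-- the step for fixed Sylow subgroups: only the numbers dividing `|V|` enter -/
theorem s_PT (hACT : ActC) (G : Type) [Group G] [Finite G] (r : ℕ) (hr : r.Prime) (V : Subgroup G)
    [V.Normal] (hab : ∀ x ∈ V, ∀ y ∈ V, x * y = y * x) (hne : V ≠ ⊥) (hVr : IsPGroup r V)
    (ι : Type) [Finite ι] (p : ι → ℕ) (hp : ∀ i, (p i).Prime) (hinj : Function.Injective p)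
    (h2 : ∀ i, p i ≠ 2) (hmers : ∀ i a b, 1 ≤ a → 2 ^ b ∣ Nat.card V → 2 ^ b ≠ p i ^ a + 1)
    (P : ∀ i, Sylow (p i) G) (x : G)
    (hx : ∀ i, (((P i : Subgroup G) ⊔ V) ⊓
      ((P i : Subgroup G) ⊔ V).map (MulAut.conj x).toMonoidHom).Normal) :
    ∃ v ∈ V, ∀ i, ((P i : Subgroup G) ⊓
      (P i : Subgroup G).map (MulAut.conj (v * x)).toMonoidHom).Normal := by
  have hfact : ∀ i, Fact (p i).Prime := fun i => ⟨hp i⟩
  have hrf : Fact r.Prime := ⟨hr⟩
  -- the normal subgroups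
  set K : ι → Subgroup G := fun i => (((P i : Subgroup G) ⊔ V) ⊓
      ((P i : Subgroup G) ⊔ V).map (MulAut.conj x).toMonoidHom) with hK
  have hKn : ∀ i, (K i).Normal := fun i => hx i
  have hmK : ∀ i g, g ∈ K i ↔ (∃ q ∈ (P i : Subgroup G), ∃ v ∈ V, g = q * v) ∧
      (∃ q ∈ (P i : Subgroup G), ∃ v ∈ V, x⁻¹ * g * x = q * v) := by
    intro i g
    have h1 : g ∈ K i ↔ g ∈ ((P i : Subgroup G) ⊔ V) ∧
        g ∈ ((P i : Subgroup G) ⊔ V).map (MulAut.conj x).toMonoidHom := Subgroup.mem_inf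
    rw [h1, mem_supV, mc, mem_supV]
  have hVK : ∀ i, V ≤ K i := by
    intro i v hv
    rw [hmK]
    refine ⟨⟨1, one_mem _, v, hv, by group⟩, ⟨1, one_mem _, x⁻¹ * v * x, ?_, by group⟩⟩
    have h1 := (inferInstance : V.Normal).conj_mem v hv x⁻¹
    rwa [inv_inv] at h1
  -- F1
  have F1 : ∀ i, ∀ v ∈ V, ∀ g ∈ (P i : Subgroup G), (v * x)⁻¹ * g * (v * x) ∈ (P i : Subgroup G) →
      g ∈ K i := by
    intro i v hv g hg hg2
    rw [hmK]
    refine ⟨⟨g, hg, 1, one_mem _, by group⟩,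
      ⟨(v * x)⁻¹ * g * (v * x), hg2, ((v * x)⁻¹ * g * (v * x))⁻¹ * (x⁻¹ * g * x), ?_, by group⟩⟩
    have h1 : ((v * x)⁻¹ * g * (v * x))⁻¹ * (x⁻¹ * g * x) =
        x⁻¹ * (v⁻¹ * (g⁻¹ * v * (g⁻¹)⁻¹)) * (x⁻¹)⁻¹ := by group
    rw [h1]
    refine (inferInstance : V.Normal).conj_mem _ ?_ _
    exact V.mul_mem (V.inv_mem hv) ((inferInstance : V.Normal).conj_mem v hv g⁻¹)
  -- the case r
  have Cr : ∀ i, p i = r → ∀ v ∈ V,
      ((P i : Subgroup G) ⊓ (P i : Subgroup G).map (MulAut.conj (v * x)).toMonoidHom) = K i := by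
    intro i hi v hv
    have hVP : V ≤ (P i : Subgroup G) := by
      have h1 : IsPGroup (p i) V := by rw [hi]; exact hVr
      exact h1.le_sylow_of_normal (P i)
    ext g
    rw [Subgroup.mem_inf, mc]
    constructor
    · rintro ⟨h1, h3⟩
      exact F1 i v hv g h1 h3
    · intro hg
      obtain ⟨⟨q, hq, t, ht, e1⟩, -⟩ := (hmK i g).1 hg
      have h3 : v⁻¹ * g * v ∈ K i := by
        have h4 := (hKn i).conj_mem g hg v⁻¹
        rwa [inv_inv] at h4
      obtain ⟨-, ⟨q', hq', t', ht', e2⟩⟩ := (hmK i _).1 h3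
      refine ⟨?_, ?_⟩
      · rw [e1]
        exact Subgroup.mul_mem _ hq (hVP ht)
      · have e3 : (v * x)⁻¹ * g * (v * x) = x⁻¹ * (v⁻¹ * g * v) * x := by group
        rw [e3, e2]
        exact Subgroup.mul_mem _ hq' (hVP ht')
  -- the other primes: the elements w i
  have hw : ∀ i, ∃ w ∈ V, ∀ g ∈ K i,
      (x⁻¹ * g * x ∈ (P i : Subgroup G) ↔ w⁻¹ * g * w ∈ (P i : Subgroup G)) := by
    intro i
    have := hKn i
    obtain ⟨k, hk, hkk⟩ := conj_in (P i) (K i) x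
    obtain ⟨⟨q, hq, v, hv, e⟩, -⟩ := (hmK i k).1 hk
    refine ⟨q * v * q⁻¹, (inferInstance : V.Normal).conj_mem v hv q, fun g hg => ?_⟩
    rw [hkk g hg]
    have e1 : k⁻¹ * g * k = q⁻¹ * ((q * v * q⁻¹)⁻¹ * g * (q * v * q⁻¹)) * q := by
      rw [e]
      group
    rw [e1]
    constructor
    · intro h
      have h3 := Subgroup.mul_mem _ (Subgroup.mul_mem _ hq h) (Subgroup.inv_mem _ hq)
      have e3 : q * (q⁻¹ * ((q * v * q⁻¹)⁻¹ * g * (q * v * q⁻¹)) * q) * q⁻¹ =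
          (q * v * q⁻¹)⁻¹ * g * (q * v * q⁻¹) := by group
      rwa [e3] at h3
    · intro h
      exact Subgroup.mul_mem _ (Subgroup.mul_mem _ (Subgroup.inv_mem _ hq) h) hq
  choose w hwV hww using hw
  -- the claim
  have hpc : ∀ i : {i // p i ≠ r}, ¬ p i.1 ∣ Nat.card V := by
    intro i h
    obtain ⟨n, hn⟩ := IsPGroup.iff_card.1 hVr
    rw [hn] at h
    exact i.2 ((Nat.prime_dvd_prime_iff_eq (hp i.1) hr).1 ((hp i.1).dvd_of_dvd_pow h))
  obtain ⟨v, hv, hvv⟩ := hACT G V hab hne {i // p i ≠ r} (fun i => p i.1) (fun i => hp i.1)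
    (fun i j h => Subtype.ext (hinj h)) (fun i => h2 i.1) hpc
    (fun i a b ha hb => hmers i.1 a b ha hb)
    (fun i => (P i.1 : Subgroup G) ⊓ K i.1) (fun i => (P i.1).isPGroup'.to_inf_left) (by
      intro i j hij g hg h hh t ht
      -- the commutator is in V
      have hc : g⁻¹ * h⁻¹ * g * h ∈ V := by
        have c1 : g⁻¹ * h⁻¹ * g * h ∈ K i.1 := by
          have e : g⁻¹ * h⁻¹ * g * h = g⁻¹ * (h⁻¹ * g * (h⁻¹)⁻¹) := by group
          rw [e]
          exact Subgroup.mul_mem _ (Subgroup.inv_mem _ hg.2) ((hKn i.1).conj_mem g hg.2 h⁻¹)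
        have c2 : g⁻¹ * h⁻¹ * g * h ∈ K j.1 := by
          have e : g⁻¹ * h⁻¹ * g * h = (g⁻¹ * h⁻¹ * (g⁻¹)⁻¹) * h := by group
          rw [e]
          exact Subgroup.mul_mem _ ((hKn j.1).conj_mem h⁻¹ (Subgroup.inv_mem _ hh.2) g⁻¹) hh.2
        have c3 : (QuotientGroup.mk' V (g⁻¹ * h⁻¹ * g * h)) = 1 := by
          have d1 : (QuotientGroup.mk' V (g⁻¹ * h⁻¹ * g * h)) ∈
              (P i.1 : Subgroup G).map (QuotientGroup.mk' V) := (mQ V _ _).2 ((hmK i.1 _).1 c1).1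
          have d2 : (QuotientGroup.mk' V (g⁻¹ * h⁻¹ * g * h)) ∈
              (P j.1 : Subgroup G).map (QuotientGroup.mk' V) := (mQ V _ _).2 ((hmK j.1 _).1 c2).1
          exact one_of_mem (hp i.1) (hp j.1) (fun h => hij (Subtype.ext (hinj h)))
            ((P i.1).isPGroup'.map _) ((P j.1).isPGroup'.map _) d1 d2
        exact (QuotientGroup.eq_one_iff _).1 c3
      have e1 : g * h = h * g * (g⁻¹ * h⁻¹ * g * h) := by group
      have e2 : g * h * t * (g * h)⁻¹ =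
          h * g * ((g⁻¹ * h⁻¹ * g * h) * t * (g⁻¹ * h⁻¹ * g * h)⁻¹) * (h * g)⁻¹ := by
        group
      rw [e2, hab _ hc t ht, mul_inv_cancel_right])
    (fun i => w i.1) (fun i => hwV i.1)
  refine ⟨v, hv, fun i => ?_⟩
  by_cases hi : p i = r
  · rw [Cr i hi v hv]
    exact hKn i
  · -- the description of the intersection
    have hu : v * w i ∈ V := V.mul_mem hv (hwV i)
    have hdesc : ∀ g, g ∈ ((P i : Subgroup G) ⊓
        (P i : Subgroup G).map (MulAut.conj (v * x)).toMonoidHom) ↔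
        g ∈ (P i : Subgroup G) ∧ g ∈ K i ∧ ∀ t ∈ V, g * t = t * g := by
      intro g
      rw [Subgroup.mem_inf, mc]
      have e3 : (v * x)⁻¹ * g * (v * x) = x⁻¹ * (v⁻¹ * g * v) * x := by group
      have e4 : (v * w i)⁻¹ * g * (v * w i) = (w i)⁻¹ * (v⁻¹ * g * v) * w i := by group
      constructor
      · rintro ⟨h1, h3⟩
        have hgK := F1 i v hv g h1 h3
        have hcK : v⁻¹ * g * v ∈ K i := by
          have h4 := (hKn i).conj_mem g hgK v⁻¹
          rwa [inv_inv] at h4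
        rw [e3, hww i _ hcK, ← e4] at h3
        refine ⟨h1, hgK, ?_⟩
        have h5 : g⁻¹ * ((v * w i)⁻¹ * g * (v * w i)) ∈ (P i : Subgroup G) :=
          Subgroup.mul_mem _ (Subgroup.inv_mem _ h1) h3
        have h6 : g⁻¹ * ((v * w i)⁻¹ * g * (v * w i)) ∈ V := by
          have e5 : g⁻¹ * ((v * w i)⁻¹ * g * (v * w i)) =
              (g⁻¹ * (v * w i)⁻¹ * (g⁻¹)⁻¹) * (v * w i) := by group
          rw [e5]
          exact V.mul_mem ((inferInstance : V.Normal).conj_mem _ (V.inv_mem hu) g⁻¹) hu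
        have h7 := one_of_mem (hp i) hr hi (P i).isPGroup' hVr h5 h6
        have h8 : g * (v * w i) = (v * w i) * g := by
          have h9 : (v * w i)⁻¹ * g * (v * w i) = g := by
            have h10 := inv_mul_eq_one.1 h7
            exact h10.symm
          calc g * (v * w i) = (v * w i) * ((v * w i)⁻¹ * g * (v * w i)) := by group
            _ = (v * w i) * g := by rw [h9]
        exact hvv ⟨i, hi⟩ g ⟨h1, hgK⟩ h8
      · rintro ⟨h1, hgK, h3⟩
        refine ⟨h1, ?_⟩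
        have hcK : v⁻¹ * g * v ∈ K i := by
          have h4 := (hKn i).conj_mem g hgK v⁻¹
          rwa [inv_inv] at h4
        rw [e3, hww i _ hcK, ← e4]
        have h9 : (v * w i)⁻¹ * g * (v * w i) = g := by
          rw [mul_assoc, h3 _ hu, inv_mul_cancel_left]
        rw [h9]
        exact h1
    refine ⟨fun g hg a => ?_⟩
    rw [hdesc] at hg ⊢
    obtain ⟨h1, hgK, h3⟩ := hg
    have hK2 : a * g * a⁻¹ ∈ K i := (hKn i).conj_mem g hgK a
    have hcen : ∀ t ∈ V, (a * g * a⁻¹) * t = t * (a * g * a⁻¹) := by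
      intro t ht
      have h4 : a⁻¹ * t * a ∈ V := by
        have h5 := (inferInstance : V.Normal).conj_mem t ht a⁻¹
        rwa [inv_inv] at h5
      have h6 := h3 _ h4
      calc (a * g * a⁻¹) * t = a * (g * (a⁻¹ * t * a)) * a⁻¹ := by group
        _ = a * ((a⁻¹ * t * a) * g) * a⁻¹ := by rw [h6]
        _ = t * (a * g * a⁻¹) := by group
    obtain ⟨⟨q, hq, t, ht, e⟩, -⟩ := (hmK i _).1 hK2
    -- t = 1
    have hqt : Commute q t := by
      have h4 := hcen t ht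
      rw [e] at h4
      have h5 : q * t * t = t * q * t := by
        rw [h4]
        group
      exact mul_right_cancel h5
    obtain ⟨m1, hm1⟩ := (P i).isPGroup' ⟨g, h1⟩
    obtain ⟨m2, hm2⟩ := (P i).isPGroup' ⟨q, hq⟩
    have hg1 : g ^ (p i ^ m1) = 1 := congrArg Subtype.val hm1
    have hq1 : q ^ (p i ^ m2) = 1 := congrArg Subtype.val hm2
    have hg2 : (a * g * a⁻¹) ^ (p i ^ (m1 + m2)) = 1 := by
      rw [conj_pow, pow_add, pow_mul, hg1, one_pow, mul_one, mul_inv_cancel]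
    have ht1 : t ^ (p i ^ (m1 + m2)) = 1 := by
      rw [e, hqt.mul_pow] at hg2
      have h4 : q ^ (p i ^ (m1 + m2)) = 1 := by
        rw [add_comm, pow_add, pow_mul, hq1, one_pow]
      rwa [h4, one_mul] at hg2
    obtain ⟨m3, hm3⟩ := hVr ⟨t, ht⟩
    have ht2 : t = 1 := one_of (hp i) hr hi ht1 (congrArg Subtype.val hm3)
    refine ⟨?_, hK2, hcen⟩
    rw [e, ht2, mul_one]
    exact hq

end Pool.Agent.L7h65.SI
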